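import Pool.Agent.Helper2.MM.Data

/-! Row K3 of the identity (K): `E tr(Dv τ B) = b + s - p`. -/

namespace Pool.Agent.Helper2.MM

open MeasureTheory Matrix

namespace HJet

variable {E ι : Type*} [NormedAddCommGroup E] [NormedSpace ℝ E] [Fintype ι] [DecidableEq ι]
  {D : VJet E ι} (H : HJet D)

/-- `A h_i` -/
def Ah (i : ι) (x : E) : ℝ :=
  ∑ k, D.X k x * H.B x k i - ∑ l, ∑ k, D.τ x l k * H.S l x k i

/-- `D_j (A h_i)` -/
def Ah1 (i j : ι) (x : E) : ℝ :=
  (H.B x j i + ∑ k, D.X k x * H.S j x k i)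
    - (∑ l, ∑ k, D.τ x l k * H.R l j x k i
      - ∑ l, ∑ k, (D.τ x * D.T j x * D.τ x) l k * H.S l x k i)

theorem dAh (i j : ι) : PD (D.e j) (H.Ah i) (H.Ah1 i j) := by
  have h1 : PD (D.e j) (fun x => ∑ k, D.X k x * H.B x k i)
      (fun x => ∑ k, ((if k = j then 1 else 0) * H.B x k i + D.X k x * H.S j x k i)) :=
    PD.sum _ (fun k _ => (D.dX k j).mul (H.dB j k i))
  have h2 : PD (D.e j) (fun x => ∑ l, ∑ k, D.τ x l k * H.S l x k i)
      (fun x => ∑ l, ∑ k, (-(D.τ x * D.T j x * D.τ x) l k * H.S l x k i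
        + D.τ x l k * H.R l j x k i)) :=
    PD.sum _ (fun l _ => PD.sum _ (fun k _ => (D.dτ j l k).mul (H.dS l j k i)))
  refine (h1.sub h2).congr (fun x => rfl) (fun x => ?_)
  unfold Ah1
  simp only [Finset.sum_add_distrib, neg_mul, Finset.sum_neg_distrib]
  have e1 : ∑ k, (if k = j then (1:ℝ) else 0) * H.B x k i = H.B x j i := by simp
  rw [e1]
  ring

theorem cAh (i : ι) : Continuous (H.Ah i) :=
  (continuous_finsetSum _ (fun k _ => (D.cX k).mul (H.cB k i))).sub
    (continuous_finsetSum _ (fun l _ => continuous_finsetSum _ (fun k _ =>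
      (D.cτ l k).mul (H.cS l k i))))

theorem cAh1 (i j : ι) : Continuous (H.Ah1 i j) :=
  ((H.cB j i).add (continuous_finsetSum _ (fun k _ => (D.cX k).mul (H.cS j k i)))).sub
    ((continuous_finsetSum _ (fun l _ => continuous_finsetSum _ (fun k _ =>
      (D.cτ l k).mul (H.cR l j k i)))).sub
    (continuous_finsetSum _ (fun l _ => continuous_finsetSum _ (fun k _ =>
      (((D.cτ.mul (D.cT j)).mul D.cτ) l k).mul (H.cS l k i)))))

section

variable [FiniteDimensional ℝ E] [MeasurableSpace E] [BorelSpace E]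
  {μ : Measure E} [μ.IsAddHaarMeasure]

/-- step (1) and (2): `E sum_j v_ij (τ B)_ji = E sum_j N_ji D_j (A h_i)` -/
theorem K3_step (i : ι) :
    D.Ex μ (fun x => ∑ j, H.v1 i j x * (D.τ x * H.B x) j i)
      = D.Ex μ (fun x => ∑ j, H.Ah1 i j x * H.N x j i) := by
  have h1 := D.Ex_pair (μ := μ) (F := H.v i) (F' := fun j => H.v1 i j)
    (w1 := fun k x => H.B x k i) (w2 := fun k l x => H.S l x k i)
    (fun j => H.dv i j) (H.cv i) (fun j => H.cv1 i j)
    (fun k l => H.dB l k i) (fun k => H.cB k i) (fun k l => H.cS l k i) (Or.inl (H.sv i))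
  have h2 := D.Ex_ibp_sum (μ := μ) (F := H.Ah i) (F' := fun j => H.Ah1 i j)
    (u := fun j x => H.N x j i) (u' := fun j x => H.N1 j x j i)
    (fun j => H.dAh i j) (H.cAh i) (fun j => H.cAh1 i j)
    (fun j => H.dN j j i) (fun j => H.cN j i) (fun j => H.cN1 j j i)
    (Or.inr (fun j => H.sN j i))
  rw [h2]
  have e2 : ∀ x, H.Ah i x * ∑ j, (D.W1 j x * H.N x j i - H.N1 j x j i)
      = H.v i x * (∑ k, D.X k x * H.B x k i - ∑ l, ∑ k, D.τ x l k * H.S l x k i) := by
    intro x
    rw [← H.v_eq' i x]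
    unfold Ah
    ring
  rw [D.Ex_congr e2, h1]
  refine D.Ex_congr (fun x => ?_)
  refine Finset.sum_congr rfl (fun j _ => ?_)
  rw [Matrix.mul_apply]

/-- step (4): `E N_ji A h_ij` -/
theorem K3_pair (i j : ι) :
    D.Ex μ (fun x => H.N x j i * (∑ k, D.X k x * H.S k x i j
        - ∑ l, ∑ k, D.τ x l k * H.R k l x i j))
      = D.Ex μ (fun x => ∑ l, H.N1 l x j i * ∑ k, D.τ x l k * H.S k x i j) :=
  D.Ex_pair (μ := μ) (F := fun x => H.N x j i) (F' := fun l x => H.N1 l x j i)
    (w1 := fun k x => H.S k x i j) (w2 := fun k l x => H.R k l x i j)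
    (fun l => H.dN l j i) (H.cN j i) (fun l => H.cN1 l j i)
    (fun k l => H.dS k l i j) (fun k => H.cS k i j) (fun k l => H.cR k l i j)
    (Or.inl (H.sN j i))

end

/-- symmetry: `(R l j)_ki = (R k l)_ij` -/
theorem Rperm (l j k i : ι) (x : E) : H.R l j x k i = H.R k l x i j := by
  rw [H.Rsym'' l j x k i, H.Rsym' l k x j i, H.Rsym k l x j i]

/-- pointwise: `sum_ij N_ji ( ... )` -/
theorem Ah1_eq (i j : ι) (x : E) :
    H.Ah1 i j x = H.B x j i + (∑ k, D.X k x * H.S k x i j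
        - ∑ l, ∑ k, D.τ x l k * H.R k l x i j)
      + ∑ l, ∑ k, (D.τ x * D.T j x * D.τ x) l k * H.S l x k i := by
  unfold Ah1
  have e1 : ∑ k, D.X k x * H.S j x k i = ∑ k, D.X k x * H.S k x i j :=
    Finset.sum_congr rfl (fun k _ => by rw [H.Ssym' j x k i, H.Ssym k x j i])
  have e2 : ∑ l, ∑ k, D.τ x l k * H.R l j x k i = ∑ l, ∑ k, D.τ x l k * H.R k l x i j :=
    Finset.sum_congr rfl (fun l _ => Finset.sum_congr rfl (fun k _ => by rw [H.Rperm l j k i]))
  rw [e1, e2]
  ring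

theorem trace_mul_sum (A B : Matrix ι ι ℝ) : (A * B).trace = ∑ i, ∑ j, A j i * B i j := by
  simp only [Matrix.trace, Matrix.diag_apply, Matrix.mul_apply]
  rw [Finset.sum_comm]

theorem swap4 (f : ι → ι → ι → ι → ℝ) :
    ∑ i, ∑ j, ∑ l, ∑ m, f i j l m = ∑ l, ∑ m, ∑ i, ∑ j, f i j l m := by
  calc ∑ i, ∑ j, ∑ l, ∑ m, f i j l m
      = ∑ i, ∑ l, ∑ j, ∑ m, f i j l m :=
        Finset.sum_congr rfl (fun i _ => Finset.sum_comm)
    _ = ∑ l, ∑ i, ∑ j, ∑ m, f i j l m := Finset.sum_comm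
    _ = ∑ l, ∑ i, ∑ m, ∑ j, f i j l m :=
        Finset.sum_congr rfl (fun l _ => Finset.sum_congr rfl (fun i _ => Finset.sum_comm))
    _ = ∑ l, ∑ m, ∑ i, ∑ j, f i j l m :=
        Finset.sum_congr rfl (fun l _ => Finset.sum_comm)

/-- the term `sum_ij N_ji sum_lk (τ T_j τ)_lk (S_l)_ki` is `pp` -/
theorem pp_eq (x : E) :
    ∑ i, ∑ j, H.N x j i * ∑ l, ∑ k, (D.τ x * D.T j x * D.τ x) l k * H.S l x k i = H.pp x := by
  have hT : ∀ j m k, (D.T j x * D.τ x) m k = (D.T m x * D.τ x) j k := by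
    intro j m k
    simp only [Matrix.mul_apply]
    exact Finset.sum_congr rfl (fun r _ => by rw [D.Tsym' j x m r])
  have h1 : ∀ i j l, ∑ k, (D.τ x * D.T j x * D.τ x) l k * H.S l x k i
      = ∑ m, D.τ x l m * (D.T m x * D.τ x * H.S l x) j i := by
    intro i j l
    have e : ∀ k, (D.τ x * D.T j x * D.τ x) l k * H.S l x k i
        = ∑ m, D.τ x l m * ((D.T m x * D.τ x) j k * H.S l x k i) := by
      intro k
      rw [Matrix.mul_assoc, Matrix.mul_apply, Finset.sum_mul]
      exact Finset.sum_congr rfl (fun m _ => by rw [hT j m k, mul_assoc])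
    simp only [e]
    rw [Finset.sum_comm]
    exact Finset.sum_congr rfl (fun m _ => by
      rw [← Finset.mul_sum, Matrix.mul_apply (M := D.T m x * D.τ x)])
  have h2 : ∀ l m, (H.S l x * D.τ x * D.T m x * H.N x).trace
      = ∑ i, ∑ j, H.N x j i * (D.T m x * D.τ x * H.S l x) j i := by
    intro l m
    have e1 : (H.S l x * D.τ x * D.T m x * H.N x).trace
        = ((H.N x) * (D.T m x * D.τ x * H.S l x)).trace := by
      rw [← Matrix.trace_transpose (H.S l x * D.τ x * D.T m x * H.N x)]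
      congr 1
      rw [Matrix.transpose_mul, Matrix.transpose_mul, Matrix.transpose_mul, H.NT, D.TT, D.τT,
        H.ST]
      simp only [Matrix.mul_assoc]
    rw [e1, trace_mul_sum, Finset.sum_comm]
    exact Finset.sum_congr rfl (fun i _ => Finset.sum_congr rfl (fun j _ => by
      rw [H.Nsym x i j]))
  unfold pp
  simp only [h1, h2, Finset.mul_sum]
  rw [swap4]
  refine Finset.sum_congr rfl (fun l _ => Finset.sum_congr rfl (fun m _ =>
    Finset.sum_congr rfl (fun i _ => Finset.sum_congr rfl (fun j _ => ?_))))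
  ring

theorem bb_eq (x : E) : ∑ i, ∑ j, H.N x j i * H.B x j i = H.bb x := by
  unfold bb
  have : D.τ x * H.B x * D.τ x * H.B x = H.N x * H.B x := rfl
  rw [this, trace_mul_sum]
  exact Finset.sum_congr rfl (fun i _ => Finset.sum_congr rfl (fun j _ => by
      rw [H.Bsym x i j]))

/-- pointwise: the pairing term is `ss - 2 pp` -/
theorem ss_eq (x : E) :
    ∑ i, ∑ j, ∑ l, H.N1 l x j i * ∑ k, D.τ x l k * H.S k x i j = H.ss x - 2 * H.pp x := by
  have h0 : ∑ i, ∑ j, ∑ l, H.N1 l x j i * ∑ k, D.τ x l k * H.S k x i j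
      = ∑ l, ∑ k, D.τ x l k * (H.N1 l x * H.S k x).trace := by
    simp only [Finset.mul_sum, trace_mul_sum]
    rw [swap4 (fun i j l k => H.N1 l x j i * (D.τ x l k * H.S k x i j))]
    refine Finset.sum_congr rfl (fun l _ => Finset.sum_congr rfl (fun k _ =>
      Finset.sum_congr rfl (fun i _ => Finset.sum_congr rfl (fun j _ => ?_))))
    ring
  have h1 : ∀ l k, (H.N1 l x * H.S k x).trace
      = (H.S l x * D.τ x * H.S k x * D.τ x).trace
        - 2 * (H.S k x * D.τ x * D.T l x * H.N x).trace := by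
    intro l k
    unfold N1
    rw [Matrix.sub_mul, Matrix.sub_mul, Matrix.trace_sub, Matrix.trace_sub]
    have e1 : (D.τ x * H.S l x * D.τ x * H.S k x).trace
        = (H.S l x * D.τ x * H.S k x * D.τ x).trace := by
      rw [Matrix.trace_mul_comm (H.S l x * D.τ x * H.S k x) (D.τ x)]
      simp only [Matrix.mul_assoc]
    have e2 : (D.τ x * D.T l x * H.N x * H.S k x).trace
        = (H.S k x * D.τ x * D.T l x * H.N x).trace := by
      rw [Matrix.trace_mul_comm (D.τ x * D.T l x * H.N x) (H.S k x)]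
      simp only [Matrix.mul_assoc]
    have e3 : (H.N x * D.T l x * D.τ x * H.S k x).trace
        = (H.S k x * D.τ x * D.T l x * H.N x).trace := by
      rw [← Matrix.trace_transpose (H.N x * D.T l x * D.τ x * H.S k x)]
      congr 1
      rw [Matrix.transpose_mul, Matrix.transpose_mul, Matrix.transpose_mul, H.NT, D.TT, D.τT,
        H.ST]
      simp only [Matrix.mul_assoc]
    rw [e1, e2, e3]
    ring
  rw [h0]
  simp only [h1, mul_sub, Finset.sum_sub_distrib]
  unfold ss pp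
  congr 1
  rw [Finset.sum_comm, Finset.mul_sum]
  refine Finset.sum_congr rfl (fun k _ => ?_)
  rw [Finset.mul_sum]
  refine Finset.sum_congr rfl (fun l _ => ?_)
  rw [D.τsym x l k]
  ring

theorem cbb : Continuous H.bb := CMat.trace (((D.cτ.mul H.cB).mul D.cτ).mul H.cB)

theorem sbb : HasCompactSupport H.bb := SMat.trace (SMat.mul_left H.sB)

theorem cpp : Continuous H.pp :=
  continuous_finsetSum _ (fun i _ => continuous_finsetSum _ (fun j _ =>
    (D.cτ i j).mul (CMat.trace ((((H.cS i).mul D.cτ).mul (D.cT j)).mul H.cN))))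

theorem spp : HasCompactSupport H.pp :=
  HasCompactSupport.fsum _ (fun i _ => HasCompactSupport.fsum _ (fun j _ =>
    (SMat.trace (SMat.mul_left H.sN)).mul_left))

theorem css : Continuous H.ss :=
  continuous_finsetSum _ (fun i _ => continuous_finsetSum _ (fun j _ =>
    (D.cτ i j).mul (CMat.trace ((((H.cS i).mul D.cτ).mul (H.cS j)).mul D.cτ))))

theorem sss : HasCompactSupport H.ss :=
  HasCompactSupport.fsum _ (fun i _ => HasCompactSupport.fsum _ (fun j _ =>
    (SMat.trace ((((H.sS i).mul_right).mul_right).mul_right)).mul_left))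

section

variable [FiniteDimensional ℝ E] [MeasurableSpace E] [BorelSpace E]
  {μ : Measure E} [μ.IsAddHaarMeasure]

/-- row K3: `E tr(Dv τ B) = b + s - p` -/
theorem K3 : D.Ex μ H.cc = D.Ex μ H.bb + D.Ex μ H.ss - D.Ex μ H.pp := by
  have cP : ∀ i j, Continuous (fun x => ∑ k, D.X k x * H.S k x i j
        - ∑ l, ∑ k, D.τ x l k * H.R k l x i j) := fun i j =>
    (continuous_finsetSum _ (fun k _ => (D.cX k).mul (H.cS k i j))).sub
      (continuous_finsetSum _ (fun l _ => continuous_finsetSum _ (fun k _ =>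
        (D.cτ l k).mul (H.cR k l i j))))
  have a1 : D.Ex μ H.cc = D.Ex μ (fun x => ∑ i, ∑ j, H.Ah1 i j x * H.N x j i) := by
    have e1 : D.Ex μ H.cc
        = ∑ i, D.Ex μ (fun x => ∑ j, H.v1 i j x * (D.τ x * H.B x) j i) :=
      D.Ex_sum (F := fun i x => ∑ j, H.v1 i j x * (D.τ x * H.B x) j i) Finset.univ
        (fun i _ => continuous_finsetSum _ (fun j _ => (H.cv1 i j).mul ((D.cτ.mul H.cB) j i)))
        (fun i _ => HasCompactSupport.fsum _ (fun j _ => (H.sv1 i j).mul_right))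
    rw [e1, D.Ex_sum (F := fun i x => ∑ j, H.Ah1 i j x * H.N x j i) Finset.univ
        (fun i _ => continuous_finsetSum _ (fun j _ => (H.cAh1 i j).mul (H.cN j i)))
        (fun i _ => HasCompactSupport.fsum _ (fun j _ => (H.sN j i).mul_left))]
    exact Finset.sum_congr rfl (fun i _ => H.K3_step i)
  have a2 : ∀ x, ∑ i, ∑ j, H.Ah1 i j x * H.N x j i
      = (H.bb x + H.pp x) + ∑ i, ∑ j, H.N x j i * (∑ k, D.X k x * H.S k x i j
        - ∑ l, ∑ k, D.τ x l k * H.R k l x i j) := by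
    intro x
    rw [← H.bb_eq x, ← H.pp_eq x, ← Finset.sum_add_distrib, ← Finset.sum_add_distrib]
    refine Finset.sum_congr rfl (fun i _ => ?_)
    rw [← Finset.sum_add_distrib, ← Finset.sum_add_distrib]
    refine Finset.sum_congr rfl (fun j _ => ?_)
    rw [H.Ah1_eq i j x]
    ring
  have a3 : D.Ex μ (fun x => ∑ i, ∑ j, H.N x j i * (∑ k, D.X k x * H.S k x i j
        - ∑ l, ∑ k, D.τ x l k * H.R k l x i j)) = D.Ex μ H.ss - 2 * D.Ex μ H.pp := by
    have cF : ∀ i j, Continuous (fun x => H.N x j i * (∑ k, D.X k x * H.S k x i j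
        - ∑ l, ∑ k, D.τ x l k * H.R k l x i j)) := fun i j => (H.cN j i).mul (cP i j)
    have sF : ∀ i j, HasCompactSupport (fun x => H.N x j i * (∑ k, D.X k x * H.S k x i j
        - ∑ l, ∑ k, D.τ x l k * H.R k l x i j)) := fun i j => (H.sN j i).mul_right
    have cG : ∀ i j, Continuous (fun x => ∑ l, H.N1 l x j i * ∑ k, D.τ x l k * H.S k x i j) :=
      fun i j => continuous_finsetSum _ (fun l _ => (H.cN1 l j i).mul
        (continuous_finsetSum _ (fun k _ => (D.cτ l k).mul (H.cS k i j))))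
    have sG : ∀ i j, HasCompactSupport
        (fun x => ∑ l, H.N1 l x j i * ∑ k, D.τ x l k * H.S k x i j) :=
      fun i j => HasCompactSupport.fsum _ (fun l _ => (H.sN1 l j i).mul_right)
    rw [D.Ex_sum (F := fun i x => ∑ j, H.N x j i * (∑ k, D.X k x * H.S k x i j
        - ∑ l, ∑ k, D.τ x l k * H.R k l x i j)) Finset.univ
        (fun i _ => continuous_finsetSum _ (fun j _ => cF i j))
        (fun i _ => HasCompactSupport.fsum _ (fun j _ => sF i j))]
    have e2 : ∀ i, D.Ex μ (fun x => ∑ j, H.N x j i * (∑ k, D.X k x * H.S k x i j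
        - ∑ l, ∑ k, D.τ x l k * H.R k l x i j))
        = D.Ex μ (fun x => ∑ j, ∑ l, H.N1 l x j i * ∑ k, D.τ x l k * H.S k x i j) := by
      intro i
      rw [D.Ex_sum (F := fun j x => H.N x j i * (∑ k, D.X k x * H.S k x i j
        - ∑ l, ∑ k, D.τ x l k * H.R k l x i j)) Finset.univ
        (fun j _ => cF i j) (fun j _ => sF i j),
        D.Ex_sum (F := fun j x => ∑ l, H.N1 l x j i * ∑ k, D.τ x l k * H.S k x i j) Finset.univ
        (fun j _ => cG i j) (fun j _ => sG i j)]
      exact Finset.sum_congr rfl (fun j _ => H.K3_pair i j)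
    simp only [e2]
    rw [← D.Ex_sum (F := fun i x => ∑ j, ∑ l, H.N1 l x j i * ∑ k, D.τ x l k * H.S k x i j)
        Finset.univ
        (fun i _ => continuous_finsetSum _ (fun j _ => cG i j))
        (fun i _ => HasCompactSupport.fsum _ (fun j _ => sG i j))]
    rw [D.Ex_congr (fun x => H.ss_eq x),
      D.Ex_sub (F := H.ss) (F' := fun x => 2 * H.pp x) H.css H.sss
        (continuous_const.mul H.cpp) H.spp.mul_left, D.Ex_const_mul]
  rw [a1, D.Ex_congr a2, D.Ex_add (F := fun x => H.bb x + H.pp x)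
    (F' := fun x => ∑ i, ∑ j, H.N x j i * (∑ k, D.X k x * H.S k x i j
        - ∑ l, ∑ k, D.τ x l k * H.R k l x i j)) (H.cbb.add H.cpp) (H.sbb.add H.spp)
    (continuous_finsetSum _ (fun i _ => continuous_finsetSum _ (fun j _ =>
      (H.cN j i).mul (cP i j))))
    (HasCompactSupport.fsum _ (fun i _ => HasCompactSupport.fsum _ (fun j _ =>
      (H.sN j i).mul_right))), a3,
    D.Ex_add (F := H.bb) (F' := H.pp) H.cbb H.sbb H.cpp H.spp]
  ring

end

end HJet

end Pool.Agent.Helper2.MM
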